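import Pool.Agent.U80.FO.Sec

/-!
The function field of a plane curve; common zeros; the divisor argument.
-/

set_option autoImplicit false

namespace Pool.Agent.U80.FO

open MvPolynomial

universe u
variable {K : Type u} [Field K]

theorem exists_model {p : MvPolynomial (Fin 2) K} (hp : Irreducible p) :
    ∃ (L : Type u) (_ : Field L) (_ : Algebra K L) (x : Fin 2 → L),
      ∀ q : MvPolynomial (Fin 2) K, aeval x q = 0 ↔ p ∣ q := by
  have hprime : Prime p := hp.prime
  have hP : (Ideal.span {p}).IsPrime := (Ideal.span_singleton_prime hp.ne_zero).mpr hprime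
  let A := MvPolynomial (Fin 2) K ⧸ Ideal.span {p}
  refine ⟨FractionRing A, inferInstance, inferInstance,
    fun i => algebraMap A (FractionRing A) (Ideal.Quotient.mk _ (X i)), fun q => ?_⟩
  have h : aeval (fun i => algebraMap A (FractionRing A) (Ideal.Quotient.mk _ (X i))) q =
      algebraMap A (FractionRing A) (Ideal.Quotient.mk _ q) := by
    have h2 : (aeval (fun i => algebraMap A (FractionRing A) (Ideal.Quotient.mk _ (X i))) :
        MvPolynomial (Fin 2) K →ₐ[K] FractionRing A) =
        (IsScalarTower.toAlgHom K A (FractionRing A)).comp (Ideal.Quotient.mkₐ K _) := by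
      ext i
      simp only [aeval_X, AlgHom.comp_apply]
      rfl
    rw [h2]
    rfl
  rw [h, map_eq_zero_iff _ (IsFractionRing.injective A (FractionRing A)),
    Ideal.Quotient.eq_zero_iff_mem, Ideal.mem_span_singleton]

theorem common {p q : MvPolynomial (Fin 2) K} (hp : Irreducible p) (hq : ¬ p ∣ q)
    (i j : Fin 2) (hij : i ≠ j) :
    ∃ r : Polynomial K, r ≠ 0 ∧ ∀ z : Fin 2 → K, eval z p = 0 → eval z q = 0 →
      r.eval (z i) = 0 := by
  obtain ⟨L, _, _, x, hx⟩ := exists_model hp
  let φ : Polynomial K →+* L := (Polynomial.aeval (x i) : Polynomial K →ₐ[K] L).toRingHom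
  let _ : Algebra (Polynomial K) L := φ.toAlgebra
  have hj : IsAlgebraic (Polynomial K) (x j) := by
    refine ⟨sec j p, fun h => ?_, ?_⟩
    · have h2 := lead_ne_zero j hp.ne_zero
      rw [lead, h, Polynomial.coeff_zero] at h2
      exact h2 rfl
    · have h2 := aeval_sec j i hij.symm x p
      rw [(hx p).mpr dvd_rfl] at h2
      exact h2
  have halg : ∀ s : MvPolynomial (Fin 2) K, IsAlgebraic (Polynomial K) (aeval x s) := by
    intro s
    induction s using MvPolynomial.induction_on with
    | C a =>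
      rw [MvPolynomial.algHom_C]
      have : algebraMap K L a = algebraMap (Polynomial K) L (Polynomial.C a) := by
        change _ = Polynomial.aeval (x i) (Polynomial.C a)
        rw [Polynomial.aeval_C]
      rw [this]
      exact isAlgebraic_algebraMap _
    | add s t hs ht => rw [map_add]; exact hs.add ht
    | mul_X s l hs =>
      rw [map_mul, aeval_X]
      refine hs.mul ?_
      have : l = i ∨ l = j := by omega
      rcases this with rfl | rfl
      · have : x l = algebraMap (Polynomial K) L Polynomial.X := by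
          change _ = Polynomial.aeval (x l) Polynomial.X
          rw [Polynomial.aeval_X]
        rw [this]
        exact isAlgebraic_algebraMap _
      · exact hj
  have hne : aeval x q ≠ 0 := fun h => hq ((hx q).mp h)
  obtain ⟨R, hR0, hR⟩ := (halg q).exists_nonzero_coeff_and_aeval_eq_zero
    (mem_nonZeroDivisors_of_ne_zero hne)
  refine ⟨R.coeff 0, hR0, fun z hz hzq => ?_⟩
  let ψ : Polynomial K →+* MvPolynomial (Fin 2) K :=
    (Polynomial.aeval (X i) : Polynomial K →ₐ[K] MvPolynomial (Fin 2) K).toRingHom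
  have h1 : aeval x (R.eval₂ ψ q) = 0 := by
    rw [← hR, Polynomial.aeval_def]
    change (aeval x : MvPolynomial (Fin 2) K →ₐ[K] L).toRingHom _ = _
    rw [Polynomial.hom_eval₂]
    congr 1
    ext a
    · simp [ψ]
      change _ = Polynomial.aeval (x i) (Polynomial.C a)
      rw [Polynomial.aeval_C]
    · simp [ψ]
      change _ = Polynomial.aeval (x i) Polynomial.X
      rw [Polynomial.aeval_X]
  obtain ⟨t, ht⟩ := (hx _).mp h1
  have h2 : eval z (R.eval₂ ψ q) = 0 := by rw [ht, map_mul, hz, zero_mul]
  rw [Polynomial.hom_eval₂, hzq] at h2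
  rw [Polynomial.eval₂_at_zero] at h2
  rw [← h2]
  simp only [RingHom.comp_apply]
  change _ = eval z (Polynomial.aeval (X i) (R.coeff 0))
  have : (eval z) (Polynomial.aeval (X i) (R.coeff 0)) =
      (aeval z : MvPolynomial (Fin 2) K →ₐ[K] K) (Polynomial.aeval (X i) (R.coeff 0)) := rfl
  rw [this, ← Polynomial.aeval_algHom_apply, aeval_X, Polynomial.coe_aeval_eq_eval]

variable {L : Type u} [Field L] [Algebra K L]

theorem poly_mem (V : ValuationSubring L) (hV : ∀ c : K, algebraMap K L c ∈ V) {y : L}
    (hy : y ∈ V) (q : Polynomial K) : Polynomial.aeval y q ∈ V := by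
  induction q using Polynomial.induction_on' with
  | add q r hq hr => rw [map_add]; exact V.add_mem _ _ hq hr
  | monomial n a =>
    rw [Polynomial.aeval_monomial]
    exact V.mul_mem _ _ (hV a) (V.toSubring.pow_mem hy n)

theorem mvpoly_mem (V : ValuationSubring L) (hV : ∀ c : K, algebraMap K L c ∈ V) {x : Fin 2 → L}
    (hx : ∀ i, x i ∈ V) (q : MvPolynomial (Fin 2) K) : aeval x q ∈ V := by
  induction q using MvPolynomial.induction_on with
  | C a => rw [MvPolynomial.algHom_C]; exact hV a
  | add q r hq hr => rw [map_add]; exact V.add_mem _ _ hq hr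
  | mul_X q l hq =>
    rw [map_mul, aeval_X]
    exact V.mul_mem _ _ hq (hx l)

theorem val_const (V : ValuationSubring L) (hV : ∀ c : K, algebraMap K L c ∈ V) {c : K}
    (hc : c ≠ 0) : V.valuation (algebraMap K L c) = 1 := by
  apply le_antisymm ((V.valuation_le_one_iff _).mpr (hV c))
  have h := (V.valuation_le_one_iff _).mpr (hV c⁻¹)
  rw [map_inv₀, map_inv₀] at h
  have h2 : V.valuation (algebraMap K L c) ≠ 0 := by
    rw [Valuation.ne_zero_iff]
    exact (map_ne_zero (algebraMap K L)).mpr hc
  exact (inv_le_one₀ (zero_lt_iff.mpr h2)).mp h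

theorem val_at_inf (V : ValuationSubring L) (hV : ∀ c : K, algebraMap K L c ∈ V) (x : Fin 2 → L)
    {p : MvPolynomial (Fin 2) K} (hx : aeval x p = 0) (i j : Fin 2) (hij : i ≠ j)
    (h1 : x i ∉ V) (h2 : x j ∈ V) (b : K) (hb : (lead i p).eval b ≠ 0) :
    V.valuation (x j - algebraMap K L b) = 1 := by
  have h2' := (V.valuation_le_one_iff _).mpr (V.toSubring.sub_mem h2 (hV b))
  rcases h2'.lt_or_eq with h3 | h3
  swap
  · exact h3
  exfalso
  have h4 : 1 < V.valuation (x i) := by
    rw [← not_le, V.valuation_le_one_iff]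
    exact h1
  have h5 := aeval_sec i j hij x p
  rw [hx, Polynomial.eval₂_eq_sum_range, natDegree_sec, Finset.sum_range_succ] at h5
  -- the leading coefficient is a unit
  have h6 : V.valuation (Polynomial.aeval (x j) (lead i p)) = 1 := by
    obtain ⟨q, hq⟩ := Polynomial.X_sub_C_dvd_sub_C_eval (p := lead i p) (a := b)
    have h7 : Polynomial.aeval (x j) (lead i p) = algebraMap K L ((lead i p).eval b) +
        (x j - algebraMap K L b) * Polynomial.aeval (x j) q := by
      have := congrArg (Polynomial.aeval (x j)) hq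
      rw [map_sub, map_mul, map_sub, Polynomial.aeval_C, Polynomial.aeval_X,
        Polynomial.aeval_C] at this
      rw [← this]
      ring
    have h8 := val_const V hV hb
    rw [h7, Valuation.map_add_eq_of_lt_left, h8]
    rw [h8, map_mul]
    calc _ ≤ V.valuation (x j - algebraMap K L b) * 1 :=
          mul_le_mul_right ((V.valuation_le_one_iff _).mpr (poly_mem V hV h2 q)) _
      _ < 1 := by rwa [mul_one]
  have h9 : V.valuation (∑ k ∈ Finset.range (p.degreeOf i),
      (Polynomial.aeval (x j) : Polynomial K →ₐ[K] L).toRingHom ((sec i p).coeff k) * x i ^ k) <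
      V.valuation (x i ^ (p.degreeOf i)) := by
    have hpos : V.valuation (x i ^ (p.degreeOf i)) ≠ 0 := by
      rw [Valuation.ne_zero_iff]
      refine pow_ne_zero _ fun h => ?_
      rw [h, map_zero] at h4
      exact absurd h4 (by simp)
    refine Valuation.map_sum_lt _ hpos fun k hk => ?_
    rw [map_mul, map_pow, map_pow]
    calc _ ≤ 1 * V.valuation (x i) ^ k :=
          mul_le_mul_left ((V.valuation_le_one_iff _).mpr (poly_mem V hV h2 _)) _
      _ < V.valuation (x i) ^ (p.degreeOf i) := by
          rw [one_mul]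
          exact pow_lt_pow_right₀ h4 (Finset.mem_range.mp hk)
  have h10 : V.valuation ((Polynomial.aeval (x j) : Polynomial K →ₐ[K] L).toRingHom
      ((sec i p).coeff (p.degreeOf i)) * x i ^ (p.degreeOf i)) =
      V.valuation (x i ^ (p.degreeOf i)) := by
    rw [map_mul]
    change V.valuation (Polynomial.aeval (x j) (lead i p)) * _ = _
    rw [h6, one_mul]
  have h11 := (V.valuation).map_add_eq_of_lt_left (h10 ▸ h9 :
    V.valuation (∑ k ∈ Finset.range (p.degreeOf i),
      (Polynomial.aeval (x j) : Polynomial K →ₐ[K] L).toRingHom ((sec i p).coeff k) * x i ^ k) <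
      V.valuation ((Polynomial.aeval (x j) : Polynomial K →ₐ[K] L).toRingHom
      ((sec i p).coeff (p.degreeOf i)) * x i ^ (p.degreeOf i)))
  rw [add_comm, h5, map_zero, h10] at h11
  rw [← h11] at h9
  exact absurd h9 (by simp)

/-- An element of a field `L ⊇ K`, `K` algebraically closed, which is in all valuation rings of `L`
that contain `K` is in `K`. -/
theorem const_of_forall [IsAlgClosed K] (w : L)
    (h : ∀ V : ValuationSubring L, (∀ c : K, algebraMap K L c ∈ V) → w ∈ V) :
    ∃ c : K, algebraMap K L c = w := by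
  by_cases hw : w ∈ (integralClosure K L).toSubring
  · have h1 : IsIntegral K w := hw
    have h2 := IsAlgClosed.degree_eq_one_of_irreducible K (minpoly.irreducible h1)
    exact minpoly.mem_range_of_degree_eq_one _ _ h2
  · obtain ⟨V, hV, hwV⟩ := Subring.exists_le_valuationSubring_of_isIntegrallyClosedIn hw
    exact absurd (h V fun c => hV ((integralClosure K L).algebraMap_mem c)) hwV

/-- The product of the `X_i - s`, `s ∈ S`. -/
noncomputable def PP (i : Fin 2) (S : Finset K) : MvPolynomial (Fin 2) K :=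
  ∏ s ∈ S, (X i - C s)

theorem aeval_PP (x : Fin 2 → L) (i : Fin 2) (S : Finset K) :
    aeval x (PP i S) = ∏ s ∈ S, (x i - algebraMap K L s) := by
  rw [PP, map_prod]
  refine Finset.prod_congr rfl fun s _ => ?_
  rw [map_sub, aeval_X, MvPolynomial.algHom_C]

theorem val_prod_inf (V : ValuationSubring L) (hV : ∀ c : K, algebraMap K L c ∈ V) {y : L}
    (hy : y ∉ V) (S : Finset K) :
    V.valuation (∏ s ∈ S, (y - algebraMap K L s)) = V.valuation y ^ S.card := by
  have h4 : 1 < V.valuation y := by
    rw [← not_le, V.valuation_le_one_iff]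
    exact hy
  rw [map_prod, Finset.prod_congr rfl (g := fun _ => V.valuation y), Finset.prod_const]
  intro s _
  rw [sub_eq_add_neg, Valuation.map_add_eq_of_lt_left]
  rw [Valuation.map_neg]
  exact lt_of_le_of_lt ((V.valuation_le_one_iff _).mpr (hV s)) h4

theorem not_dvd_linear {p : MvPolynomial (Fin 2) K} (i j : Fin 2) (hij : i ≠ j)
    (hd : p.degreeOf j ≠ 0) (s : K) : ¬ p ∣ X i - C s := by
  intro h
  have h1 := Polynomial.natDegree_le_of_dvd (map_dvd (sec j) h) ?_
  · rw [natDegree_sec] at h1
    have h2 : sec j (X i - C s : MvPolynomial (Fin 2) K) =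
        Polynomial.C (Polynomial.X - Polynomial.C s) := by
      rw [map_sub, sec, aeval_X, if_neg hij, MvPolynomial.algHom_C, Polynomial.algebraMap_apply,
        ← Polynomial.C_eq_algebraMap, map_sub]
    rw [h2, Polynomial.natDegree_C] at h1
    omega
  · have h2 : sec j (X i - C s : MvPolynomial (Fin 2) K) =
        Polynomial.C (Polynomial.X - Polynomial.C s) := by
      rw [map_sub, sec, aeval_X, if_neg hij, MvPolynomial.algHom_C, Polynomial.algebraMap_apply,
        ← Polynomial.C_eq_algebraMap, map_sub]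
    rw [h2]
    exact Polynomial.C_ne_zero.mpr (Polynomial.X_sub_C_ne_zero s)

/-- **The divisor argument.** -/
theorem core [IsAlgClosed K] {p : MvPolynomial (Fin 2) K} (hp : Irreducible p)
    (hd0 : p.degreeOf 0 ≠ 0) (hd1 : p.degreeOf 1 ≠ 0) (A1 A2 B1 B2 : Finset K) (k1 k2 : ℕ)
    (hA : k1 * A1.card = k2 * A2.card) (hB : k1 * B1.card = k2 * B2.card)
    (e1 : ∃ t, p ∣ PP 0 A1 - t * PP 1 B1) (e2 : ∃ t, p ∣ PP 1 B2 - t * PP 0 A2)
    (l1 : ∀ b ∈ B1, (lead 0 p).eval b ≠ 0) (l2 : ∀ a ∈ A2, (lead 1 p).eval a ≠ 0) :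
    ∃ c : K, p ∣ PP 0 A1 ^ k1 * PP 1 B2 ^ k2 - C c * (PP 0 A2 ^ k2 * PP 1 B1 ^ k1) := by
  obtain ⟨L, _, _, x, hx⟩ := exists_model hp
  obtain ⟨t1, e1⟩ := e1
  obtain ⟨t2, e2⟩ := e2
  rw [← hx, map_sub, map_mul, aeval_PP, aeval_PP, sub_eq_zero] at e1 e2
  have hne : ∀ (i j : Fin 2), i ≠ j → p.degreeOf j ≠ 0 → ∀ S : Finset K,
      ∏ s ∈ S, (x i - algebraMap K L s) ≠ 0 := by
    intro i j hij hd S
    rw [Finset.prod_ne_zero_iff]
    intro s _ h
    apply not_dvd_linear i j hij hd s
    rw [← hx, map_sub, aeval_X, MvPolynomial.algHom_C]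
    exact h
  have n2 := hne 0 1 (by decide) hd1 A2
  have m1 := hne 1 0 (by decide) hd0 B1
  set P1 := ∏ s ∈ A1, (x 0 - algebraMap K L s) with hP1
  set P2 := ∏ s ∈ A2, (x 0 - algebraMap K L s) with hP2
  set Q1 := ∏ s ∈ B1, (x 1 - algebraMap K L s) with hQ1
  set Q2 := ∏ s ∈ B2, (x 1 - algebraMap K L s) with hQ2
  obtain ⟨c, hc⟩ := const_of_forall (K := K) (P1 ^ k1 * Q2 ^ k2 / (P2 ^ k2 * Q1 ^ k1)) (by
    intro V hV
    have hx0 : aeval x p = 0 := (hx p).mpr dvd_rfl
    have mem : ∀ (i : Fin 2), x i ∈ V → ∀ S : Finset K, ∏ s ∈ S, (x i - algebraMap K L s) ∈ V :=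
      fun i hi S => V.toSubring.prod_mem fun s _ => V.toSubring.sub_mem hi (hV s)
    have vne : ∀ z : L, z ≠ 0 → V.valuation z ≠ 0 := fun z hz =>
      (Valuation.ne_zero_iff _).mpr hz
    by_cases h0 : x 0 ∈ V
    · by_cases h1 : x 1 ∈ V
      · -- both coordinates are finite
        have hV2 : ∀ i, x i ∈ V := by
          intro i
          have : i = 0 ∨ i = 1 := by omega
          rcases this with rfl | rfl
          · exact h0
          · exact h1
        have : P1 ^ k1 * Q2 ^ k2 / (P2 ^ k2 * Q1 ^ k1) = aeval x t1 ^ k1 * aeval x t2 ^ k2 := by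
          rw [e1, e2, mul_pow, mul_pow]
          have hm : Q1 ^ k1 ≠ 0 := pow_ne_zero _ m1
          have hn : P2 ^ k2 ≠ 0 := pow_ne_zero _ n2
          field_simp
        rw [this]
        exact V.mul_mem _ _ (V.toSubring.pow_mem (mvpoly_mem V hV hV2 t1) _)
          (V.toSubring.pow_mem (mvpoly_mem V hV hV2 t2) _)
      · -- `x 1` is infinite
        rw [← V.valuation_le_one_iff, map_div₀, map_mul, map_mul, map_pow, map_pow, map_pow,
          map_pow, hQ1, hQ2, val_prod_inf V hV h1, val_prod_inf V hV h1, ← pow_mul, ← pow_mul,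
          mul_comm B1.card, mul_comm B2.card, hB]
        have hv : V.valuation P2 = 1 := by
          rw [hP2, map_prod]
          refine Finset.prod_eq_one fun a ha => ?_
          exact val_at_inf V hV x hx0 1 0 (by decide) h1 h0 a (l2 a ha)
        have hz : V.valuation (x 1) ^ (k2 * B2.card) ≠ 0 := by
          refine pow_ne_zero _ (vne _ fun h => h1 ?_)
          rw [h]
          exact V.zero_mem
        rw [hv, one_pow, one_mul, mul_div_assoc, div_self hz, mul_one]
        exact pow_le_one₀ zero_le' ((V.valuation_le_one_iff _).mpr (mem 0 h0 A1))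
    · by_cases h1 : x 1 ∈ V
      · rw [← V.valuation_le_one_iff, map_div₀, map_mul, map_mul, map_pow, map_pow, map_pow,
          map_pow, hP1, hP2, val_prod_inf V hV h0, val_prod_inf V hV h0, ← pow_mul, ← pow_mul,
          mul_comm A1.card, mul_comm A2.card, hA]
        have hv : V.valuation Q1 = 1 := by
          rw [hQ1, map_prod]
          refine Finset.prod_eq_one fun a ha => ?_
          exact val_at_inf V hV x hx0 0 1 (by decide) h0 h1 a (l1 a ha)
        have hz : V.valuation (x 0) ^ (k2 * A2.card) ≠ 0 := by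
          refine pow_ne_zero _ (vne _ fun h => h0 ?_)
          rw [h]
          exact V.zero_mem
        rw [hv, one_pow, mul_one, mul_div_right_comm, div_self hz, one_mul]
        exact pow_le_one₀ zero_le' ((V.valuation_le_one_iff _).mpr (mem 1 h1 B2))
      · rw [← V.valuation_le_one_iff, map_div₀, map_mul, map_mul, map_pow, map_pow, map_pow,
          map_pow, hP1, hP2, hQ1, hQ2, val_prod_inf V hV h0, val_prod_inf V hV h0,
          val_prod_inf V hV h1, val_prod_inf V hV h1, ← pow_mul, ← pow_mul, ← pow_mul, ← pow_mul,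
          mul_comm A1.card, mul_comm A2.card, hA, mul_comm B1.card, mul_comm B2.card, hB,
          div_self]
        refine mul_ne_zero (pow_ne_zero _ (vne _ fun h => h0 ?_))
          (pow_ne_zero _ (vne _ fun h => h1 ?_))
        · rw [h]; exact V.zero_mem
        · rw [h]; exact V.zero_mem)
  refine ⟨c, ?_⟩
  rw [← hx, map_sub, map_mul, map_pow, map_pow, aeval_PP, aeval_PP, map_mul, map_mul, map_pow,
    map_pow, aeval_PP, aeval_PP, MvPolynomial.algHom_C, hc, ← hP1, ← hP2, ← hQ1, ← hQ2]
  have hm : Q1 ^ k1 ≠ 0 := pow_ne_zero _ m1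
  have hn : P2 ^ k2 ≠ 0 := pow_ne_zero _ n2
  rw [div_mul_cancel₀ _ (mul_ne_zero hn hm), sub_self]

end Pool.Agent.U80.FO
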