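import Mathlib

/-!
Polynomials in two variables: sections, common zeros, behaviour at infinity in a valuation ring.
-/

set_option autoImplicit false

namespace Pool.Agent.U80.FO

open MvPolynomial

universe u
variable {K : Type u} [Field K]

/-- `p` as a polynomial in the variable `i` with coefficients in the polynomials in the other
variable. -/
noncomputable def sec (i : Fin 2) : MvPolynomial (Fin 2) K →ₐ[K] Polynomial (Polynomial K) :=
  aeval fun l => if l = i then Polynomial.X else Polynomial.C Polynomial.X

/-- The section with the other variable equal to `b`. -/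
noncomputable def sp (i : Fin 2) (b : K) (p : MvPolynomial (Fin 2) K) : Polynomial K :=
  (sec i p).map (Polynomial.evalRingHom b)

theorem aeval_sec {R : Type*} [CommRing R] [Algebra K R] (i j : Fin 2) (hij : i ≠ j)
    (z : Fin 2 → R) (p : MvPolynomial (Fin 2) K) :
    (sec i p).eval₂ (Polynomial.aeval (z j) : Polynomial K →ₐ[K] R).toRingHom (z i) =
      aeval z p := by
  induction p using MvPolynomial.induction_on with
  | C a =>
    rw [sec, MvPolynomial.algHom_C, MvPolynomial.algHom_C]
    rw [Polynomial.algebraMap_apply, Polynomial.eval₂_C]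
    simp
  | add p q hp hq => rw [map_add, Polynomial.eval₂_add, hp, hq, map_add]
  | mul_X p l hp =>
    rw [map_mul, Polynomial.eval₂_mul, hp, map_mul]
    congr 1
    rw [sec, aeval_X, aeval_X]
    by_cases hl : l = i
    · rw [if_pos hl, Polynomial.eval₂_X, hl]
    · rw [if_neg hl, Polynomial.eval₂_C]
      have : l = j := by omega
      subst this
      simp

theorem eval_sp (i j : Fin 2) (hij : i ≠ j) (z : Fin 2 → K) (p : MvPolynomial (Fin 2) K) :
    (sp i (z j) p).eval (z i) = eval z p := by
  have h := aeval_sec i j hij z p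
  rw [sp, Polynomial.eval_map, ← MvPolynomial.coe_aeval_eq_eval, RingHom.coe_coe, ← h]
  rfl

theorem derivative_sec (i : Fin 2) (p : MvPolynomial (Fin 2) K) :
    Polynomial.derivative (sec i p) = sec i (pderiv i p) := by
  induction p using MvPolynomial.induction_on with
  | C a =>
    rw [pderiv_C, map_zero, sec, MvPolynomial.algHom_C, Polynomial.algebraMap_apply,
      Polynomial.derivative_C]
  | add p q hp hq => rw [map_add, map_add, hp, hq, map_add, map_add]
  | mul_X p l hp =>
    rw [map_mul, Polynomial.derivative_mul, hp, Derivation.leibniz, map_add]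
    simp only [smul_eq_mul, map_mul]
    by_cases hl : l = i
    · subst hl
      rw [pderiv_X_self, map_one]
      have : sec l (X l : MvPolynomial (Fin 2) K) = Polynomial.X := by
        rw [sec, aeval_X, if_pos rfl]
      rw [this, Polynomial.derivative_X]
      ring
    · rw [pderiv_X_of_ne hl, map_zero]
      have : sec i (X l : MvPolynomial (Fin 2) K) = Polynomial.C Polynomial.X := by
        rw [sec, aeval_X, if_neg hl]
      rw [this, Polynomial.derivative_C]
      ring

theorem derivative_sp (i : Fin 2) (b : K) (p : MvPolynomial (Fin 2) K) :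
    Polynomial.derivative (sp i b p) = sp i b (pderiv i p) := by
  rw [sp, Polynomial.derivative_map, derivative_sec, sp]

theorem sec_eq_sum (i j : Fin 2) (hij : i ≠ j) (p : MvPolynomial (Fin 2) K) :
    sec i p = ∑ d ∈ p.support, Polynomial.C (Polynomial.C (coeff d p) * Polynomial.X ^ d j) *
      Polynomial.X ^ d i := by
  rw [sec, aeval_def, eval₂_eq']
  refine Finset.sum_congr rfl fun d _ => ?_
  have h : (∏ l : Fin 2, (if l = i then (Polynomial.X : Polynomial (Polynomial K))
      else Polynomial.C Polynomial.X) ^ d l) =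
      Polynomial.X ^ d i * (Polynomial.C Polynomial.X) ^ d j := by
    rw [Fin.prod_univ_two]
    have hi : (i = 0 ∧ j = 1) ∨ (i = 1 ∧ j = 0) := by omega
    rcases hi with ⟨rfl, rfl⟩ | ⟨rfl, rfl⟩
    · simp
    · simp [mul_comm]
  rw [h, Polynomial.algebraMap_apply, map_mul, map_pow, ← Polynomial.C_eq_algebraMap]
  ring

theorem eval_coeff_sec (i j : Fin 2) (hij : i ≠ j) (p : MvPolynomial (Fin 2) K) (k : ℕ) (b : K) :
    ((sec i p).coeff k).eval b = ∑ d ∈ p.support, if d i = k then coeff d p * b ^ d j else 0 := by
  rw [sec_eq_sum i j hij, Polynomial.finsetSum_coeff, Polynomial.eval_finsetSum]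
  refine Finset.sum_congr rfl fun d _ => ?_
  rw [Polynomial.coeff_C_mul, Polynomial.coeff_X_pow]
  by_cases h : d i = k
  · rw [if_pos h.symm, if_pos h]
    simp
  · rw [if_neg (Ne.symm h), if_neg h]
    simp

theorem coeff_coeff_sec (i j : Fin 2) (hij : i ≠ j) (p : MvPolynomial (Fin 2) K) (k l : ℕ) :
    ((sec i p).coeff k).coeff l =
      ∑ d ∈ p.support, if d i = k ∧ d j = l then coeff d p else 0 := by
  rw [sec_eq_sum i j hij, Polynomial.finsetSum_coeff, Polynomial.finsetSum_coeff]
  refine Finset.sum_congr rfl fun d _ => ?_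
  rw [Polynomial.coeff_C_mul, Polynomial.coeff_X_pow]
  by_cases h : d i = k
  · rw [if_pos h.symm, mul_one, Polynomial.coeff_C_mul, Polynomial.coeff_X_pow]
    by_cases h' : d j = l
    · rw [if_pos h'.symm, if_pos ⟨h, h'⟩, mul_one]
    · rw [if_neg (Ne.symm h'), if_neg (fun h2 => h' h2.2), mul_zero]
  · rw [if_neg (Ne.symm h), if_neg (fun h2 => h h2.1), mul_zero, Polynomial.coeff_zero]

theorem natDegree_sec (i : Fin 2) (p : MvPolynomial (Fin 2) K) :
    (sec i p).natDegree = p.degreeOf i := by
  obtain ⟨j, hij⟩ : ∃ j : Fin 2, i ≠ j := ⟨1 - i, by omega⟩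
  by_cases hp : p = 0
  · subst hp
    rw [map_zero, Polynomial.natDegree_zero, degreeOf_zero]
  have hle : (sec i p).natDegree ≤ p.degreeOf i := by
    rw [Polynomial.natDegree_le_iff_coeff_eq_zero]
    intro k hk
    ext l
    rw [coeff_coeff_sec i j hij, Polynomial.coeff_zero]
    refine Finset.sum_eq_zero fun d hd => ?_
    rw [if_neg]
    rintro ⟨h, -⟩
    have := monomial_le_degreeOf i hd
    omega
  obtain ⟨d, hd, hdi⟩ : ∃ d ∈ p.support, d i = p.degreeOf i := by
    rw [degreeOf_eq_sup]
    obtain ⟨d, hd, h⟩ := Finset.exists_mem_eq_sup p.support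
      (Finset.nonempty_iff_ne_empty.mpr (fun h => hp (support_eq_empty.mp h))) (fun m => m i)
    exact ⟨d, hd, h.symm⟩
  refine Polynomial.natDegree_eq_of_le_of_coeff_ne_zero hle fun h => ?_
  have h2 := congrArg (fun q => Polynomial.coeff q (d j)) h
  simp only [Polynomial.coeff_zero] at h2
  rw [coeff_coeff_sec i j hij, Finset.sum_eq_single d] at h2
  · rw [if_pos ⟨hdi, rfl⟩] at h2
    exact (mem_support_iff.mp hd) h2
  · intro e he hne
    rw [if_neg]
    rintro ⟨h3, h4⟩
    apply hne
    ext l
    have : l = i ∨ l = j := by omega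
    rcases this with rfl | rfl
    · rw [h3, hdi]
    · exact h4
  · intro h3
    exact absurd hd h3

/-- the leading coefficient, as a polynomial in the other variable -/
noncomputable def lead (i : Fin 2) (p : MvPolynomial (Fin 2) K) : Polynomial K :=
  (sec i p).coeff (p.degreeOf i)

theorem lead_ne_zero (i : Fin 2) {p : MvPolynomial (Fin 2) K} (hp : p ≠ 0) : lead i p ≠ 0 := by
  rw [lead, ← natDegree_sec]
  intro h
  rw [Polynomial.coeff_natDegree, Polynomial.leadingCoeff_eq_zero] at h
  apply hp
  obtain ⟨j, hij⟩ : ∃ j : Fin 2, i ≠ j := ⟨1 - i, by omega⟩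
  ext d
  have h2 := coeff_coeff_sec i j hij p (d i) (d j)
  rw [h, Polynomial.coeff_zero, Polynomial.coeff_zero] at h2
  rw [coeff_zero]
  by_contra h3
  have hd : d ∈ p.support := mem_support_iff.mpr h3
  rw [Finset.sum_eq_single d] at h2
  · rw [if_pos ⟨rfl, rfl⟩] at h2
    exact h3 h2.symm
  · intro e he hne
    rw [if_neg]
    rintro ⟨h4, h5⟩
    apply hne
    ext l
    have : l = i ∨ l = j := by omega
    rcases this with rfl | rfl
    · exact h4
    · exact h5
  · intro h4
    exact absurd hd h4

theorem sp_natDegree (i : Fin 2) (b : K) {p : MvPolynomial (Fin 2) K}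
    (h : (lead i p).eval b ≠ 0) : (sp i b p).natDegree = p.degreeOf i := by
  rw [sp, Polynomial.natDegree_map_of_leadingCoeff_ne_zero, natDegree_sec]
  rw [Polynomial.leadingCoeff, natDegree_sec]
  exact h

end Pool.Agent.U80.FO
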